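import Pool.Agent.N929.ON.Stm

/-!
ON/EXIT: the path leaves at the right place (helper31 for the project ON of helper929).
-/

set_option autoImplicit false

namespace Pool.Agent.N31.ON

open Finset
open Pool.Agent.N929.ON

variable {W L : ℕ} {a b : ℤ} {σ : ℤ × ℤ → Bool}

lemma mem_Dom {x y : ℤ} : (x, y) ∈ Dom W L ↔ (1 ≤ x ∧ x ≤ W) ∧ (1 ≤ y ∧ y ≤ L) := by
  unfold Dom
  rw [Finset.mem_product, Finset.mem_Icc, Finset.mem_Icc]

lemma bd_iff {x y : ℤ} : bd L a b (x, y) = true ↔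
    (y ≤ 0 ∧ x ≤ a) ∨ (0 < y ∧ y ≤ L ∧ x ≤ 0) ∨ (0 < y ∧ (L : ℤ) < y ∧ x ≤ b) := by
  unfold bd
  simp only
  split_ifs <;> simp only [decide_eq_true_eq] <;> omega

lemma sg {x y : ℤ} (hB : Bdy W L a b σ) (h : (x, y) ∉ Dom W L) : σ (x, y) = true ↔
    (y ≤ 0 ∧ x ≤ a) ∨ (0 < y ∧ y ≤ L ∧ x ≤ 0) ∨ (0 < y ∧ (L : ℤ) < y ∧ x ≤ b) := by
  rw [hB _ h, bd_iff]

lemma cls (hP : Par W L a b) (hB : Bdy W L a b σ) {x y : ℤ} {k : Fin 6} (hv : Val σ ((x, y), k))
    (h1 : (x, y) ∉ Dom W L) (h2 : rt ((x, y), k) ∉ Dom W L) :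
    (k = 0 ∧ ((x = a ∧ y ≤ 0) ∨ (x = b ∧ (L : ℤ) + 1 ≤ y))) ∨
    (k = 5 ∧ ((x = a ∧ y ≤ 0) ∨ (x = b ∧ (L : ℤ) + 2 ≤ y))) := by
  obtain ⟨hL, ha0, haW, hb0, hbW⟩ := hP
  obtain ⟨hv1, hv2⟩ := hv
  obtain ⟨d, hd⟩ : ∃ d : ℤ × ℤ, d = dir k := ⟨_, rfl⟩
  have hr : rt ((x, y), k) = (x + d.1, y + d.2) := by
    rw [hd]; rfl
  rw [hr] at h2 hv2
  have hv1' := (sg hB h1).1 hv1
  have hv2' : ¬ σ (x + d.1, y + d.2) = true := by rw [hv2]; simp
  rw [sg hB h2] at hv2'
  rw [mem_Dom] at h1 h2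
  fin_cases k
  · left
    refine ⟨rfl, ?_⟩
    simp [dir] at hd
    subst hd
    simp only at h2 hv2'
    omega
  · exfalso
    simp [dir] at hd
    subst hd
    simp only at h2 hv2'
    omega
  · exfalso
    simp [dir] at hd
    subst hd
    simp only at h2 hv2'
    omega
  · exfalso
    simp [dir] at hd
    subst hd
    simp only at h2 hv2'
    omega
  · exfalso
    simp [dir] at hd
    subst hd
    simp only at h2 hv2'
    omega
  · right
    refine ⟨rfl, ?_⟩
    simp [dir] at hd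
    subst hd
    simp only at h2 hv2'
    omega

/-- from `0` to `5` -/
lemma step0 {x y : ℤ} (h : σ (x, y + 1) = true) : step σ ((x, y), 0) = ((x, y + 1), 5) := by
  have e : front ((x, y), 0) = (x, y + 1) := by
    unfold front
    simp [dir]
  unfold step
  rw [e, if_pos h]
  rfl

/-- from `5` to `0` -/
lemma step5 {x y : ℤ} (h : σ (x + 1, y) = false) : step σ ((x, y), 5) = ((x, y), 0) := by
  have e : front ((x, y), 5) = (x + 1, y) := by
    unfold front
    have : ((5 : Fin 6) + 1) = 0 := by decide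
    simp only [this]
    simp [dir]
  unfold step
  rw [e, if_neg (by rw [h]; simp)]
  rfl

lemma finF : {s : St | s.1 ∈ Dom W L ∨ rt s ∈ Dom W L}.Finite := by
  have h1 : ((Dom W L ×ˢ (Finset.univ : Finset (Fin 6)) : Finset St) : Set St).Finite :=
    Finset.finite_toSet _
  have h2 : ((fun s : St => ((s.1 - dir s.2, s.2) : St)) ''
      ((Dom W L ×ˢ (Finset.univ : Finset (Fin 6)) : Finset St) : Set St)).Finite := h1.image _
  refine (h1.union h2).subset ?_
  rintro s (hs | hs)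
  · left
    rw [Finset.mem_coe, Finset.mem_product]
    exact ⟨hs, Finset.mem_univ _⟩
  · right
    refine ⟨(rt s, s.2), ?_, ?_⟩
    · rw [Finset.mem_coe, Finset.mem_product]
      exact ⟨hs, Finset.mem_univ _⟩
    · simp only [rt, add_sub_cancel_right]

theorem exit (hinj : S_INJ) : S_EXIT := by
  intro W L a b σ hP hB
  obtain ⟨hpres, hin⟩ := hinj σ
  have hP' := hP
  obtain ⟨hL, ha0, haW, hb0, hbW⟩ := hP'
  have hL' : (1 : ℤ) ≤ L := by exact_mod_cast hL
  -- signs at the bottom and at the top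
  have hbotT : ∀ x y : ℤ, y ≤ 0 → x ≤ a → σ (x, y) = true := by
    intro x y hy hx
    have h : (x, y) ∉ Dom W L := by rw [mem_Dom]; omega
    rw [sg hB h]; left; exact ⟨hy, hx⟩
  have hbotF : ∀ x y : ℤ, y ≤ 0 → a < x → σ (x, y) = false := by
    intro x y hy hx
    have h : (x, y) ∉ Dom W L := by rw [mem_Dom]; omega
    rw [← Bool.not_eq_true, sg hB h]; omega
  have htopT : ∀ x y : ℤ, (L : ℤ) + 1 ≤ y → x ≤ b → σ (x, y) = true := by
    intro x y hy hx
    have h : (x, y) ∉ Dom W L := by rw [mem_Dom]; omega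
    rw [sg hB h]; right; right; omega
  have htopF : ∀ x y : ℤ, (L : ℤ) + 1 ≤ y → b < x → σ (x, y) = false := by
    intro x y hy hx
    have h : (x, y) ∉ Dom W L := by rw [mem_Dom]; omega
    rw [← Bool.not_eq_true, sg hB h]; omega
  have hrt0 : ∀ x y : ℤ, rt ((x, y), 0) = (x + 1, y) := by
    intro x y; unfold rt; simp [dir]
  have hrt5 : ∀ x y : ℤ, rt ((x, y), 5) = (x + 1, y - 1) := by
    intro x y; unfold rt; simp [dir]; ring
  have vb0 : ∀ y : ℤ, y ≤ 0 → Val σ ((a, y), 0) := fun y hy =>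
    ⟨hbotT a y hy le_rfl, by rw [hrt0]; exact hbotF _ _ hy (by omega)⟩
  have vb5 : ∀ y : ℤ, y ≤ 0 → Val σ ((a, y), 5) := fun y hy =>
    ⟨hbotT a y hy le_rfl, by rw [hrt5]; exact hbotF _ _ (by omega) (by omega)⟩
  have vt0 : ∀ y : ℤ, (L : ℤ) + 1 ≤ y → Val σ ((b, y), 0) := fun y hy =>
    ⟨htopT b y hy le_rfl, by rw [hrt0]; exact htopF _ _ hy (by omega)⟩
  have vt5 : ∀ y : ℤ, (L : ℤ) + 2 ≤ y → Val σ ((b, y), 5) := fun y hy =>
    ⟨htopT b y (by omega) le_rfl, by rw [hrt5]; exact htopF _ _ (by omega) (by omega)⟩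
  have hstart : Val σ (start a) := vb0 0 le_rfl
  have hsucc : ∀ i, pt σ a (i + 1) = step σ (pt σ a i) := fun i =>
    Function.iterate_succ_apply' _ _ _
  have hval : ∀ i, Val σ (pt σ a i) := by
    intro i
    induction i with
    | zero => exact hstart
    | succ i ih => rw [hsucc]; exact hpres _ ih
  have h00 : pt σ a 0 = ((a, 0), 0) := rfl
  -- the bottom
  have hbot : ∀ i, (∀ y : ℤ, y ≤ 0 → pt σ a i = ((a, y), 0) → i = 0 ∧ y = 0) ∧
      (∀ y : ℤ, y ≤ 0 → pt σ a i ≠ ((a, y), 5)) := by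
    intro i
    induction i with
    | zero =>
      refine ⟨fun y _ h => ⟨rfl, ?_⟩, fun y _ h => ?_⟩
      · rw [h00] at h
        simp only [Prod.mk.injEq] at h
        exact h.1.2.symm
      · rw [h00] at h
        simp only [Prod.mk.injEq] at h
        exact absurd h.2 (by decide)
    | succ i ih =>
      refine ⟨fun y hy h => ?_, fun y hy h => ?_⟩
      · exfalso
        rw [hsucc, ← step5 (hbotF (a + 1) y hy (by omega))] at h
        exact ih.2 y hy (hin _ _ (hval i) (vb5 y hy) h)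
      · have e : y = (y - 1) + 1 := by ring
        have h' : step σ (pt σ a i) = step σ ((a, y - 1), 0) := by
          rw [← hsucc, h, step0 (by rw [← e]; exact hbotT a y hy le_rfl), ← e]
        have h2 := (ih.1 (y - 1) (by omega) (hin _ _ (hval i) (vb0 (y - 1) (by omega)) h')).2
        omega
  have hne : ∀ i, 1 ≤ i → pt σ a i ≠ start a := by
    intro i hi h
    have := ((hbot i).1 0 le_rfl h).1
    omega
  refine ⟨hstart, ?_, hne⟩
  -- the top
  have htop : ∀ i, (∀ y : ℤ, (L : ℤ) + 1 ≤ y → pt σ a i = ((b, y), 0) →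
        ∃ N : ℕ, 1 ≤ N ∧ pt σ a N = goal L b) ∧
      (∀ y : ℤ, (L : ℤ) + 2 ≤ y → pt σ a i = ((b, y), 5) →
        ∃ N : ℕ, 1 ≤ N ∧ pt σ a N = goal L b) := by
    intro i
    induction i with
    | zero =>
      refine ⟨fun y hy h => ?_, fun y hy h => ?_⟩
      · rw [h00] at h
        simp only [Prod.mk.injEq] at h
        have := h.1.2
        omega
      · rw [h00] at h
        simp only [Prod.mk.injEq] at h
        exact absurd h.2 (by decide)
    | succ i ih =>
      refine ⟨fun y hy h => ?_, fun y hy h => ?_⟩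
      · by_cases hy' : y = (L : ℤ) + 1
        · refine ⟨i + 1, by omega, ?_⟩
          rw [h, hy']
          rfl
        · have hy2 : (L : ℤ) + 2 ≤ y := by omega
          rw [hsucc, ← step5 (htopF (b + 1) y hy (by omega))] at h
          exact ih.2 y hy2 (hin _ _ (hval i) (vt5 y hy2) h)
      · have e : y = (y - 1) + 1 := by ring
        have h' : step σ (pt σ a i) = step σ ((b, y - 1), 0) := by
          rw [← hsucc, h, step0 (by rw [← e]; exact htopT b y (by omega) le_rfl), ← e]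
        exact ih.1 (y - 1) (by omega) (hin _ _ (hval i) (vt0 (y - 1) (by omega)) h')
  by_contra hno
  have hF : ∀ i : ℕ, pt σ a (i + 1) ∈ {s : St | s.1 ∈ Dom W L ∨ rt s ∈ Dom W L} := by
    intro i
    by_contra hc
    have hc' : ¬ ((pt σ a (i + 1)).1 ∈ Dom W L ∨ rt (pt σ a (i + 1)) ∈ Dom W L) := hc
    rw [not_or] at hc'
    obtain ⟨⟨⟨x, y⟩, k⟩, hs⟩ : ∃ s, s = pt σ a (i + 1) := ⟨_, rfl⟩
    rw [← hs] at hc'
    have hv := hval (i + 1)
    rw [← hs] at hv
    rcases cls hP hB hv hc'.1 hc'.2 with ⟨rfl, h⟩ | ⟨rfl, h⟩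
    · rcases h with ⟨rfl, hy⟩ | ⟨rfl, hy⟩
      · have := ((hbot (i + 1)).1 y hy hs.symm).1
        omega
      · exact hno ((htop (i + 1)).1 y hy hs.symm)
    · rcases h with ⟨rfl, hy⟩ | ⟨rfl, hy⟩
      · exact (hbot (i + 1)).2 y hy hs.symm
      · exact hno ((htop (i + 1)).2 y hy hs.symm)
  obtain ⟨i, j, hij, he⟩ := Set.Finite.exists_lt_map_eq_of_forall_mem hF finF
  have hcancel : ∀ d n : ℕ, pt σ a (n + d) = pt σ a n → pt σ a d = pt σ a 0 := by
    intro d n
    induction n with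
    | zero => intro h; rwa [Nat.zero_add] at h
    | succ n ih =>
      intro h
      apply ih
      rw [show n + 1 + d = (n + d) + 1 by ring, hsucc, hsucc] at h
      exact hin _ _ (hval _) (hval _) h
  obtain ⟨d, hd⟩ : ∃ d, d = j - i := ⟨_, rfl⟩
  have h1 : pt σ a ((i + 1) + d) = pt σ a (i + 1) := by
    rw [he]; congr 1; omega
  exact hne d (by omega) (hcancel d (i + 1) h1)

end Pool.Agent.N31.ON
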